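import Pool.Agent.J4H65.CP.Main
import Pool.Agent.J4H25.NPF.Fin
import Pool.Agent.J4H25.NPQ.Main

/-!
# Complete disjoint NP-pairs: the exact threshold for sparse additions to a random oracle

Definitions (in `Pool/Agent/J4H65/CP/Defs.lean` for `Few` and `HasCompletePair`,
`Pool/Agent/H628R3/RO/Defs.lean`, `Pool/Agent/J4H63/ESY/Defs.lean` for `join`,
`Pool/Agent/J4H25/NPB/Fb.lean` for `runQ`, `Pool/Agent/J4H25/NPB/Main.lean` for `IsSep`,
`Pool/Agent/J4H25/NPK/Main.lean` for `RedK`, `Pool/Agent/J4H25/NPF/Fb.lean` for `ansL` and
`Pool/Agent/J4H25/NPF/Main.lean` for `NPF.Few`, `RedF` and `NoHardPairF`):

* an `Oracle` is a set of bit strings (a function from strings to booleans); `randomOracle` is the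
  fair coin measure on the space of all oracles, so `∀ᵐ B` means for all oracles outside of a set of
  measure zero; `join A E` is the disjoint union of `A` and `E`; the oracles of the theorem are
  `join B (join E S)`, the disjoint union of `B`, `E` and `S`;
* `Few f S`: for every `N`, at most `f N` of the first `N` strings (in the order of length) are in `S`;
* `IsFP X F`: the function `F` on bit strings is computable in polynomial time relative to `X`
  (by an algorithm `Alg`, whose next action, as a function of the input and of the answers so far,
  is computed in polynomial time by a Turing machine of Mathlib);
* `IsNP X`, `IsUP X`: the classes `NP` and `UP` relative to `X`; `IsPair K X₀ X₁`: the sets `X₀`, `X₁`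
  are in the class `K` and disjoint;
* `HasCompletePair X`: there is a disjoint pair `(C, D)` of sets in `NP` relative to `X` such that for
  every disjoint pair `(X₀, X₁)` of such sets some `F` with `IsFP X F` satisfies `x ∈ X₀ ↔ F x ∈ C` and
  `x ∈ X₁ ↔ F x ∈ D` for all `x` (so `C` and `D` are not empty);
* `IsUP2 X L`: the set `L` is in `NP` relative to `X` with a verifier such that no input has more
  than two witnesses; `IsP`, `IsCoNP`: the classes `P` and `coNP`; `Separates T X₀ X₁`: `T` is true on
  `X₀` and false on `X₁`;
* `NoPairHardFor X L` (in `Pool/Agent/J4H63/ESY/Defs.lean`): every disjoint pair of sets in `NP`
  relative to `X` has a separator `T` such that `L` is neither in `P` nor in `coNP` relative to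
  `join T X`; if `L` is in `NP` relative to `X`, this says that no disjoint NP-pair is NP-hard;
* `IsSep C D T`: the set `T` (a function from strings to booleans) is true on `C` and false on `D`;
* `runQ r T x b []`: the decision of the procedure `r` on the input `x` with at most `b` adaptive
  questions to `T`: on `x` and the list `a` of the answers so far, `r (pairBits x a) = false :: q` is
  the question `q`, and every other value ends the procedure, which accepts if it is `[true]`;
* `RedK X k X₀ X₁ C D`: for every separator `T` of `(C, D)` there are a polynomial `P` of degree at
  most `k` and an `r` with `IsFP X r` such that `fun x => runQ r T x (P.eval x.length) []` separates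
  `X₀` from `X₁`;
* `ansL r T x b []`: the list of the answers in the computation `runQ r T x b []`;
* `NPF.Few C D P Q r` (used in `RedF` and `NoHardPairF`): for every input `x`, the procedure `r` with at
  most `Q(|x|)` questions has at most `2 ^ P(|x|)` different computations (lists of answers `ansL`) over
  all separators of `(C, D)`;
* `RedF X k X₀ X₁ C D`: for every separator `T` of `(C, D)` there are polynomials `P`, `Q`, where `P` has
  degree at most `k`, and an `r` with `IsFP X r` and `NPF.Few C D P Q r` such that
  `fun x => runQ r T x (Q.eval x.length) []` separates `X₀` from `X₁`;
* `NoHardPairF X`: every disjoint pair `(C, D)` of sets in `NP` relative to `X` has a separator `T`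
  such that for every `k` there is a disjoint pair `(X₀, X₁)` of nonempty tally sets in `UP` relative
  to `X` such that for all polynomials `P` of degree at most `k` and `Q` every `r` with `IsFP X r` and
  `NPF.Few C D P Q r` errs: for infinitely many `x`, `x ∈ X₀` is rejected or `x ∈ X₁` is accepted by
  `runQ r T x (Q.eval x.length) []`.

Theorem. (1) Let `f` tend to infinity, no matter how slowly. Every oracle `join B E` has a complete
disjoint NP-pair after the addition of a suitable set `S` with `Few f S`. (2) For every `E` and almost
every `B` the set `S` can be chosen such that moreover no disjoint NP-pair is NP-hard relative to
`join B (join E S)`, so that Q1 is true there although complete pairs exist. (3) This is sharp: for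
every `E` and almost every `B`, if `f` does not tend to infinity, then for every `S` with `Few f S` there is no
complete pair relative to `join B (join E S)`, not even for Turing reductions with `2 ^ O(n ^ k)`
computations over all separators (for any fixed `k`), instead of many-one reductions. Such are the
procedures with `O(n ^ k)` questions (`RedK`; lemma `few_self`), and the procedures with polynomially
many questions of which `O(n ^ k)` are outside of `C ∪ D` (lemma `few_of_outside` in
`Pool/Agent/J4H25/NPF/Out.lean`), for example smart reductions.

The third part for `S = ∅` is the main theorem of `Pool/Agent/J4H25/NPF/Main.lean` (which contains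
`NoCompletePairsPolynomial`, in the graded folder before); only finitely many elements are allowed
here for `S`, and there are countably many finite sets.

Idea of the first part. A `p`-optimal proof system for the set of the triples (program, program,
clock) such that the two programs do not accept the same string yields a complete pair (as in the
work of Razborov and of Köbler, Messner and Torán on promise classes): the instances are a proof in
this system and an input for the programs. The membership of a triple depends only on the part of the
oracle up to the clock. A universal proof system simulates the program number `q` with a clock up to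
`n`, where `n = 2 ^ (2 ^ (s j))`, if `S` carries a mark for the activation of `q` and none for its
deactivation at the scales up to `n`. The activation is at a late scale, which depends on `f`; the
deactivation is at the first scale at which the program outputs something which is not in the set. So
there are at most two strings in `S` for each program.

Idea of the second part. Almost surely, for all finite `S` and for all machines, the good event of the
hand-in RandomOracle (a machine reduces the random language to all separators of a pair, with finitely
many given values) does not happen for `B` and `S`; this is an open condition for `S`. The set `S` of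
the first part depends continuously on the scales of the activations, and it is nearly finite if
almost all of them are large. So the conditions are dense and open in the space of the scales, and
the category theorem yields scales for which all conditions hold.
-/

set_option autoImplicit false

namespace Pool.Agent.Results.MP_80aaf5_lc.CompletePairsThreshold

open MeasureTheory Filter Pool.Agent.H628R3.RO Pool.Agent.J4H63.ESY
open Pool.Agent.J4H25.NPK (RedK)
open Pool.Agent.J4H25.NPF (RedF NoHardPairF)
open Pool.Agent.J4H65.CP

/-- **Every unbounded number of additional strings suffices for a complete disjoint NP-pair, for
every oracle, and, for almost every oracle (over every base), for a complete pair although no pair is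
NP-hard; no bounded number suffices.** -/
theorem result :
    (∀ (B E : Oracle) (f : ℕ → ℕ), Tendsto f atTop atTop →
      ∃ S : Oracle, Few f S ∧ HasCompletePair (join B (join E S))) ∧
    ∀ E : Oracle, ∀ᵐ B ∂randomOracle, ∀ f : ℕ → ℕ,
      (Tendsto f atTop atTop → ∃ S : Oracle, Few f S ∧ HasCompletePair (join B (join E S)) ∧
        ∃ L : Set (List Bool), IsUP2 (join B (join E S)) L ∧
          NoPairHardFor (join B (join E S)) L) ∧
      (¬ Tendsto f atTop atTop →
        ∀ S : Oracle, Few f S → NoHardPairF (join B (join E S)) ∧
          ∀ k : ℕ, ¬ ∃ C D : Set (List Bool), IsPair (IsNP (join B (join E S))) C D ∧
            ∀ X Y : Set (List Bool), IsPair (IsNP (join B (join E S))) X Y →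
              RedF (join B (join E S)) k X Y C D ∨ RedK (join B (join E S)) k X Y C D) := by
  refine ⟨pos, fun E => ?_⟩
  filter_upwards [Pool.Agent.J4H25.NPF.neg E, Pool.Agent.J4H25.NPQ.main E] with B hB hQ f
  refine ⟨hQ f, fun hf S hS => ?_⟩
  obtain ⟨c, hc⟩ := few_of_not_tendsto hf hS
  have h := hB S (finite_of_few hc)
  exact ⟨h, h.no_complete'⟩

end Pool.Agent.Results.MP_80aaf5_lc.CompletePairsThreshold
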