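import Pool.Agent.J4H63.EY.Fin

/-!
# Reductions with few computations to all separators of a disjoint NP-pair

Definitions (in `Pool/Agent/J4H63/EY/Defs.lean`, `Pool/Agent/J4H63/ESY/Defs.lean`,
`Pool/Agent/H628R3/RO/Defs.lean` and, for `InNP` and `NPHard`, `Pool/Agent/NPC/Defs.lean`):

* an `Oracle` is a set of bit strings, `Alg` a deterministic polynomial-time oracle algorithm,
  `join T B` the disjoint union `T ⊕ B`; `IsNP B`, `IsCoNP B` are `NP`, `coNP` relative to `B`, and
  `NPHardRel B K` says that `K` is many-one hard for `NP` relative to `B`; `InNP` and `NPHard` are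
  the notions without an oracle (the instance for SAT is `sat_iff` in
  `Pool/Agent/J4H63/EY/Fin.lean`);
* `IsPair (IsNP B) L₀ L₁`: `L₀`, `L₁` are disjoint languages in `NP` relative to `B`;
  `Separates T L₀ L₁`: `L₀ ⊆ T` and `L₁ ∩ T = ∅`; `Decides M T B L`: `M` with the oracles `T` and
  `B` decides `L`;
* `answers M (join T B) x` is the sequence of the answers received by `M` on input `x`, so it
  determines the computation; `FewComputations B L₀ L₁ M`: for each input `x` the number of the
  different computations of `M` on `x`, with all separators `T` of `(L₀, L₁)`, is at most `q |x|`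
  for a polynomial `q`;
* `LogOutside B L₀ L₁ M`: with each separator `T`, `M` asks `T` at most `c log₂ (|x| + 2)`
  different strings outside of `L₀ ∪ L₁`; there is no other restriction for the questions.

Idea.  A certificate for `x ∈ L` consists of all computations of `M` on `x` with the separators,
together with witnesses for those answers which are given by `L₀` or by `L₁`; every answer without
a witness must occur together with the opposite answer (or repeat an earlier answer of the same
computation), and all computations must accept.  This is sound: the computation with a given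
separator can be followed in the certificate.  It is complete: if an answer is not determined by
`L₀` and `L₁`, it can be changed in the separator.  In the same way there are certificates for
`x ∉ L`.  By the Baire category theorem it does not matter whether the reduction depends on the
separator.
-/

set_option autoImplicit false

namespace Pool.Agent.Results.MP_80aaf5_lc.FewComputations

open Pool.Agent.NPC Pool.Agent.H628R3.RO Pool.Agent.J4H63.ESY Pool.Agent.J4H63.EY

theorem result :
    (∀ (B : Oracle) (L : Set (List Bool)), List.TFAE
      [IsNP B L ∧ IsCoNP B L,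
       ∃ L₀ L₁, IsPair (IsNP B) L₀ L₁ ∧
         ∀ T, Separates T L₀ L₁ → ∃ M, FewComputations B L₀ L₁ M ∧ Decides M T B L,
       ∃ L₀ L₁, IsPair (IsNP B) L₀ L₁ ∧
         ∀ T, Separates T L₀ L₁ → ∃ M, LogOutside B L₀ L₁ M ∧ Decides M T B L,
       ∃ L₀ L₁, IsPair (IsNP B) L₀ L₁ ∧
         ∃ M, LogOutside B L₀ L₁ M ∧ ∀ T, Separates T L₀ L₁ → Decides M T B L]) ∧
    (∀ (B : Oracle) (K : Set (List Bool)), IsNP B K → NPHardRel B K →
      ((∃ L₀ L₁ : Set (List Bool), L₀.Nonempty ∧ L₁.Nonempty ∧ IsPair (IsNP B) L₀ L₁ ∧
        ∀ T, Separates T L₀ L₁ → ∃ M, FewComputations B L₀ L₁ M ∧ Decides M T B K) ↔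
      ∀ L, IsNP B L → IsCoNP B L)) ∧
    (∀ K : Set (List Bool), InNP K → NPHard K →
      ((∃ L₀ L₁ : Set (List Bool), L₀.Nonempty ∧ L₁.Nonempty ∧ IsPair InNP L₀ L₁ ∧
        ∀ T, Separates T L₀ L₁ → ∃ M, FewComputations (fun _ => false) L₀ L₁ M ∧
          Decides M T (fun _ => false) K) ↔
      ∀ L, InNP L → InNP Lᶜ)) :=
  ⟨tfae, fun _ _ h h' => complete_iff h h', fun _ h h' => np_iff h h'⟩

end Pool.Agent.Results.MP_80aaf5_lc.FewComputations
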