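import Pool.Agent.J4H63.EY.Gen

/-!
# Q1 may be decided relative to a generic oracle

Definitions (in `Pool/Agent/J4H63/EY/GDefs.lean`, `Pool/Agent/J4H63/ESY/Defs.lean`,
`Pool/Agent/H628R3/RO/Defs.lean` and, for `InNP`, `Pool/Agent/NPC/Defs.lean`):

* an `Oracle` is a set of bit strings; `join A B` is the disjoint union `A ⊕ B`; `IsP B`, `IsNP B`
  are `P`, `NP` relative to `B`; `InNP` is `NP` (without an oracle);
* `IsPair C L₀ L₁`: `L₀`, `L₁` are disjoint languages in the class `C`; `Separates T L₀ L₁`:
  `L₀ ⊆ T` and `L₁ ∩ T = ∅`;
* `HasHardPair B L`: relative to `B` there is a disjoint NP-pair of nonempty sets such that `L` is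
  polynomial-time Turing reducible to each of its separators;
* `∀ᶠ G in residual Oracle` means for comeagerly many oracles `G` (product topology).

The second part says that, for comeagerly many `G` and for all `K` in `NP` (not relative to `G`), a
disjoint NP-pair relative to `G` all whose separators are hard for `K` (relative to `G`) exists if
and only if such a pair exists without an oracle; for `K = SAT` the negation of the right side is
Q1.  The third part restates this for one `K`.

Idea.  By the Baire category theorem for the separators there is one reduction for all separators of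
a slightly larger pair.  That this reduction works for all separators, and that the pair is disjoint,
is a closed property of `G`, so for a generic `G` it is forced by finitely many bits of `G`; replace
`G` by a finite oracle with these bits.
-/

set_option autoImplicit false

namespace Pool.Agent.Results.MP_80aaf5_lc.GenericInvariance

open Filter Pool.Agent.NPC Pool.Agent.H628R3.RO Pool.Agent.J4H63.EY

theorem result :
    (∀ (E : Oracle) (C : Set (Set (List Bool))), C.Countable → ∀ᶠ G in residual Oracle,
      ∀ L ∈ C, (HasHardPair (Pool.Agent.J4H63.ESY.join G E) L ↔ HasHardPair E L)) ∧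
    (∀ᶠ G in residual Oracle, ∀ K : Set (List Bool), InNP K → (HasHardPair G K ↔
      ∃ L₀ L₁ : Set (List Bool), L₀.Nonempty ∧ L₁.Nonempty ∧ IsPair InNP L₀ L₁ ∧
        ∀ T : Oracle, Pool.Agent.J4H63.ESY.Separates T L₀ L₁ → Pool.Agent.J4H63.ESY.IsP T K)) ∧
    (∀ K : Set (List Bool), InNP K →
      ((¬ ∃ L₀ L₁ : Set (List Bool), L₀.Nonempty ∧ L₁.Nonempty ∧ IsPair InNP L₀ L₁ ∧
        ∀ T : Oracle, Pool.Agent.J4H63.ESY.Separates T L₀ L₁ → Pool.Agent.J4H63.ESY.IsP T K) ↔
      ∀ᶠ G in residual Oracle, ¬ HasHardPair G K)) :=
  ⟨gen_countable, gen_noO, fun _ hK => question_iff hK⟩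

end Pool.Agent.Results.MP_80aaf5_lc.GenericInvariance
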