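import Pool.Agent.J4H63.ESY.Gen

/-!
# The conjecture of Even, Selman and Yacobi holds relative to random and to generic oracles

Definitions (in `Pool/Agent/J4H63/ESY/Defs.lean`, and in `Pool/Agent/H628R3/RO/Defs.lean` for
`Oracle`, `Alg`, `IsFP`, `IsNP`, `IsCoNP`, `IsPair`, `coin`, `randomOracle`):

* an `Oracle` is a set of bit strings; `randomOracle` is the fair coin measure, so `∀ᵐ A` means for
  all oracles outside of a set of measure zero; `∀ᶠ A in residual Oracle` means for comeagerly many
  oracles (product topology);
* `join A B` is the disjoint union `A ⊕ B`; `IsP B`, `IsNP B`, `IsCoNP B` are `P`, `NP`, `coNP`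
  relative to `B`, and `IsUP2 B` is `UP_{≤2}` relative to `B`: languages in `NP` with a verifier
  for which no input has more than two witnesses;
* `IsPair (IsNP B) L₀ L₁`: `L₀`, `L₁` are disjoint languages in `NP` relative to `B`;
  `Separates T L₀ L₁`: `L₀ ⊆ T` and `L₁ ∩ T = ∅`;
* `NoPairHardFor B L`: every disjoint NP-pair relative to `B` has a separator `T` such that `L` is
  neither in `P` nor in `coNP` relative to `T ⊕ B`.

Idea.  `L` is the set of the `x` for which there is `y` with `|x| = 5 |y|` such that `3 |y|` bits of
the oracle belonging to `(x, y)` are all ones; almost surely almost all `x` have at most two such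
`y`.  Put a witness `(x, y)` into a random oracle, for random `x` and `y`.  As the pair is disjoint
on an event of positive measure, putting two witnesses for a random `x` creates a violation of
disjointness with exponentially small probability only (the complement of the event is a union of
cylinders of polynomial width).  So a question `q` cannot enter both sides with a noticeable
probability over `y`, and there is a separator for the old oracle whose answers to the
polynomially many questions of a given computation are correct for the new oracle as well.
-/

set_option autoImplicit false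

namespace Pool.Agent.Results.MP_80aaf5_lc.RandomOracle

open MeasureTheory Filter Pool.Agent.H628R3.RO Pool.Agent.J4H63.ESY

theorem result :
    (∀ᵐ A ∂randomOracle, ∃ L : Set (List Bool), IsUP2 A L ∧ IsNP A L ∧ NoPairHardFor A L) ∧
    (∀ E : Oracle, ∀ᵐ A ∂randomOracle, ∃ L : Set (List Bool),
      IsUP2 (join A E) L ∧ IsNP (join A E) L ∧ NoPairHardFor (join A E) L) ∧
    (∀ᶠ A in residual Oracle, ∃ L : Set (List Bool), IsNP A L ∧ NoPairHardFor A L) ∧
    (∀ E : Oracle, ∀ᶠ A in residual Oracle, ∃ L : Set (List Bool),
      IsNP (join A E) L ∧ NoPairHardFor (join A E) L) :=
  ⟨thm_random ext_id, fun E => thm_random (ext_join E), thm_gen ext_id,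
    fun E => thm_gen (ext_join E)⟩

end Pool.Agent.Results.MP_80aaf5_lc.RandomOracle
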